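import Pool.Agent.Helper67.BT.Stmts

/-!
Project BT (MP_10bc19_gt, exponents slightly above two): module TBA (two integrations by parts).
-/

open Finset MeasureTheory

namespace Pool.Agent.Helper67.BT

theorem tba_fl_apply {k : ℕ} (S : Finset (Fin k)) (x : E k) (l : Fin k) :
    fl S x l = if l ∈ S then x l else -x l := rfl

theorem tba_pr_apply {k : ℕ} (S : Finset (Fin k)) (x : E k) (l : Fin k) :
    pr S x l = if l ∈ S then x l else 0 := rfl

theorem tba_fl_inner {k : ℕ} (S : Finset (Fin k)) (a x : E k) :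
    inner ℝ a (fl S x) = inner ℝ (fl S a) x := by
  simp only [PiLp.inner_apply, tba_fl_apply]
  refine Finset.sum_congr rfl fun l _ => ?_
  by_cases h : l ∈ S
  · simp [h]
  · simp [h]

theorem tba_vl {k : ℕ} (S : Finset (Fin k)) (v : E k) (hv : pr S v = v) (l : Fin k) (hl : l ∉ S) :
    v l = 0 := by
  rw [← hv, tba_pr_apply, if_neg hl]

theorem tba_fl_self {k : ℕ} (S : Finset (Fin k)) (v : E k) (hv : pr S v = v) : fl S v = v := by
  ext l
  rw [tba_fl_apply]
  by_cases h : l ∈ S
  · rw [if_pos h]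
  · rw [if_neg h, tba_vl S v hv l h, neg_zero]

theorem tba_coord {k : ℕ} (l : Fin k) (x v : E k) :
    HasLineDerivAt ℝ (fun y : E k => y l) (v l) x v := by
  have h2 : HasDerivAt (fun t : ℝ => x l + t * v l) (1 * v l) 0 :=
    ((hasDerivAt_id (0 : ℝ)).mul_const (v l)).const_add (x l)
  rw [one_mul] at h2
  have h : (fun t : ℝ => (x + t • v) l) = fun t : ℝ => x l + t * v l := by
    ext t
    simp
  change HasDerivAt (fun t : ℝ => (x + t • v) l) (v l) 0
  rw [h]
  exact h2

theorem tba_mul {k : ℕ} {F G : E k → ℝ} {a b : ℝ} {x v : E k} (hF : HasLineDerivAt ℝ F a x v)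
    (hG : HasLineDerivAt ℝ G b x v) : HasLineDerivAt ℝ (fun y => F y * G y) (a * G x + F x * b) x v := by
  have h1 : HasDerivAt (fun t : ℝ => F (x + t • v)) a 0 := hF
  have h2 : HasDerivAt (fun t : ℝ => G (x + t • v)) b 0 := hG
  have h3 := h1.mul h2
  rw [zero_smul, add_zero] at h3
  exact h3

theorem tba_sub {k : ℕ} {F G : E k → ℝ} {a b : ℝ} {x v : E k} (hF : HasLineDerivAt ℝ F a x v)
    (hG : HasLineDerivAt ℝ G b x v) : HasLineDerivAt ℝ (fun y => F y - G y) (a - b) x v := by
  have h1 : HasDerivAt (fun t : ℝ => F (x + t • v)) a 0 := hF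
  have h2 : HasDerivAt (fun t : ℝ => G (x + t • v)) b 0 := hG
  exact h1.sub h2

theorem tba_const {k : ℕ} (a : ℝ) (x v : E k) : HasLineDerivAt ℝ (fun _ : E k => a) 0 x v := by
  change HasDerivAt (fun _ : ℝ => a) 0 0
  exact hasDerivAt_const _ _

theorem tba_eq {k : ℕ} {F : E k → ℝ} {a b : ℝ} {x v : E k} (hF : HasLineDerivAt ℝ F a x v)
    (h : a = b) : HasLineDerivAt ℝ F b x v := h ▸ hF

theorem tba_one {n k : ℕ} (c : Cfg n k) (p : ℝ) (S : Finset (Fin k)) (l l' : Fin k) (i : Fin n)
    (v : E k) (hp : 2 < p) (hp3 : p ≤ 3) (hl' : l' ∉ S) (hv : pr S v = v) :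
    (inner ℝ (c.e i) v * av c p fun x => om p (c.z i x) * (x l * x l')) =
      (av c p fun x => Om p (c.z i x) * x l' * (dV c p v x * x l - v l)) := by
  have hp2 : 2 ≤ p := hp.le
  have hv0 := tba_vl S v hv l' hl'
  have gO := PG_Om (PG_z c i) hp2
  have go := PG_om (PG_z c i) hp2
  have gl := PG_coord (k := k) l
  have gl' := PG_coord (k := k) l'
  have hF : PG (fun x : E k => Om p (c.z i x) * (x l * x l')) := PG_mul gO (PG_mul gl gl')
  have hA : PG (fun x : E k => om p (c.z i x) * (x l * x l')) := PG_mul go (PG_mul gl gl')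
  have hB : PG (fun x : E k => Om p (c.z i x) * x l' * v l) := PG_mul (PG_mul gO gl') (PG_const _)
  have hF' : PG (fun x : E k => inner ℝ (c.e i) v * (om p (c.z i x) * (x l * x l')) +
      Om p (c.z i x) * x l' * v l) := PG_add (PG_const_mul _ hA) hB
  have key := av_ibp c hp hp3 v hF hF' (fun x => by
    refine tba_eq (tba_mul (comp_line (c.e i) x v (Om_der hp (inner ℝ (c.e i) x)))
      (tba_mul (tba_coord l x v) (tba_coord l' x v))) ?_
    rw [hv0]
    unfold Cfg.z
    ring)
  have e1 : av c p (fun x => inner ℝ (c.e i) v * (om p (c.z i x) * (x l * x l')) +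
      Om p (c.z i x) * x l' * v l) = inner ℝ (c.e i) v *
        av c p (fun x => om p (c.z i x) * (x l * x l')) + av c p fun x => Om p (c.z i x) * x l' * v l := by
    rw [av_add c hp2 hp3 (PG_const_mul _ hA) hB, av_const_mul]
  have e2 : (fun x : E k => Om p (c.z i x) * x l' * (dV c p v x * x l - v l)) =
      fun x => Om p (c.z i x) * (x l * x l') * dV c p v x - Om p (c.z i x) * x l' * v l := by
    ext x
    ring
  rw [e2, av_sub c hp2 hp3 (PG_mul hF (PG_dV c hp2 v)) hB, key, e1]
  ring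

theorem tba_two {n k : ℕ} (c : Cfg n k) (p : ℝ) (S : Finset (Fin k)) (l l' : Fin k) (i : Fin n)
    (v : E k) (hp : 2 < p) (hp3 : p ≤ 3) (hl' : l' ∉ S) (hv : pr S v = v) :
    (inner ℝ (c.e i) v * av c p fun x => (Om p (c.z i x) - Om p (c.z i (fl S x))) * x l' *
      (dV c p v x * x l - v l)) =
      av c p fun x => (O2 p (c.z i x) - O2 p (c.z i (fl S x))) * x l' *
        ((dV c p v x * x l - v l) * dV c p v x - (ddV c p v v x * x l + dV c p v x * v l)) := by
  have hp2 : 2 ≤ p := hp.le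
  have hv0 := tba_vl S v hv l' hl'
  have hz : ∀ x : E k, c.z i (fl S x) = inner ℝ (fl S (c.e i)) x := fun x => tba_fl_inner S _ x
  have hin : inner ℝ (fl S (c.e i)) v = inner ℝ (c.e i) v := by
    rw [← tba_fl_inner, tba_fl_self S v hv]
  simp only [hz]
  have gz : PG (fun x : E k => inner ℝ (fl S (c.e i)) x) := PG_inner _
  have gO := PG_Om (PG_z c i) hp2
  have gO' := PG_Om gz hp2
  have g2 := PG_O2 (PG_z c i) hp2
  have g2' := PG_O2 gz hp2
  have gl := PG_coord (k := k) l
  have gl' := PG_coord (k := k) l'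
  have gd := PG_dV c hp2 v
  have gdd := PG_ddV c hp2 v v
  have gG : PG (fun x : E k => dV c p v x * x l - v l) := PG_sub (PG_mul gd gl) (PG_const _)
  have gD : PG (fun x : E k => ddV c p v v x * x l + dV c p v x * v l) :=
    PG_add (PG_mul gdd gl) (PG_mul gd (PG_const _))
  have hF : PG (fun x : E k => (O2 p (c.z i x) - O2 p (inner ℝ (fl S (c.e i)) x)) * x l' *
      (dV c p v x * x l - v l)) := PG_mul (PG_mul (PG_sub g2 g2') gl') gG
  have hA : PG (fun x : E k => (Om p (c.z i x) - Om p (inner ℝ (fl S (c.e i)) x)) * x l' *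
      (dV c p v x * x l - v l)) := PG_mul (PG_mul (PG_sub gO gO') gl') gG
  have hB : PG (fun x : E k => (O2 p (c.z i x) - O2 p (inner ℝ (fl S (c.e i)) x)) * x l' *
      (ddV c p v v x * x l + dV c p v x * v l)) := PG_mul (PG_mul (PG_sub g2 g2') gl') gD
  have key := av_ibp c hp hp3 v hF (F' := fun x : E k => inner ℝ (c.e i) v *
      ((Om p (c.z i x) - Om p (inner ℝ (fl S (c.e i)) x)) * x l' * (dV c p v x * x l - v l)) +
      (O2 p (c.z i x) - O2 p (inner ℝ (fl S (c.e i)) x)) * x l' *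
      (ddV c p v v x * x l + dV c p v x * v l)) (PG_add (PG_const_mul _ hA) hB) (fun x => by
    have d1 : HasLineDerivAt ℝ (fun y : E k => O2 p (c.z i y))
        (Om p (c.z i x) * inner ℝ (c.e i) v) x v :=
      comp_line (c.e i) x v (O2_der hp (inner ℝ (c.e i) x))
    have d2 : HasLineDerivAt ℝ (fun y : E k => O2 p (inner ℝ (fl S (c.e i)) y))
        (Om p (inner ℝ (fl S (c.e i)) x) * inner ℝ (fl S (c.e i)) v) x v :=
      comp_line (fl S (c.e i)) x v (O2_der hp (inner ℝ (fl S (c.e i)) x))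
    have d3 : HasLineDerivAt ℝ (fun y : E k => dV c p v y * y l - v l)
        ((ddV c p v v x * x l + dV c p v x * v l) - 0) x v :=
      tba_sub (tba_mul (dV_line c hp v v x) (tba_coord l x v)) (tba_const (v l) x v)
    refine tba_eq (tba_mul (tba_mul (tba_sub d1 d2) (tba_coord l' x v)) d3) ?_
    rw [hv0, hin]
    ring)
  have e1 : av c p (fun x : E k => inner ℝ (c.e i) v *
      ((Om p (c.z i x) - Om p (inner ℝ (fl S (c.e i)) x)) * x l' * (dV c p v x * x l - v l)) +
      (O2 p (c.z i x) - O2 p (inner ℝ (fl S (c.e i)) x)) * x l' *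
      (ddV c p v v x * x l + dV c p v x * v l)) = inner ℝ (c.e i) v *
      av c p (fun x : E k => (Om p (c.z i x) - Om p (inner ℝ (fl S (c.e i)) x)) * x l' *
        (dV c p v x * x l - v l)) +
      av c p (fun x : E k => (O2 p (c.z i x) - O2 p (inner ℝ (fl S (c.e i)) x)) * x l' *
      (ddV c p v v x * x l + dV c p v x * v l)) := by
    rw [av_add c hp2 hp3 (PG_const_mul _ hA) hB, av_const_mul]
  have e2 : (fun x : E k => (O2 p (c.z i x) - O2 p (inner ℝ (fl S (c.e i)) x)) * x l' *
        ((dV c p v x * x l - v l) * dV c p v x - (ddV c p v v x * x l + dV c p v x * v l))) =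
      fun x => (O2 p (c.z i x) - O2 p (inner ℝ (fl S (c.e i)) x)) * x l' *
        (dV c p v x * x l - v l) * dV c p v x -
        (O2 p (c.z i x) - O2 p (inner ℝ (fl S (c.e i)) x)) * x l' *
        (ddV c p v v x * x l + dV c p v x * v l) := by
    ext x
    ring
  rw [e2, av_sub c hp2 hp3 (PG_mul hF gd) hB, key, e1]
  ring

theorem st_TBA : ST_TBA := by
  intro n k c p S l l' i v hp hp3 _ hl' hv
  exact ⟨tba_one c p S l l' i v hp hp3 hl' hv, tba_two c p S l l' i v hp hp3 hl' hv⟩

end Pool.Agent.Helper67.BT
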